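import Pool.Agent.H93.KC.Targets
import Pool.Agent.H9.CS.Cau

/-!
# Module CAU: `z̄` is a limit of combinations of Cauchy kernels on a compact null set
-/

set_option autoImplicit false

namespace Pool.Agent.H24.KC

open Set Complex Topology MeasureTheory Pool.Agent.H87.CS Pool.Agent.H9.CS
open Filter hiding ker
open Pool.Agent.H93.KC
open scoped ContDiff Convolution

lemma dbar_trans {h : ℂ → ℂ} (hg : Differentiable ℝ h) (z t : ℂ) :
    dbar (fun w => h (z + w)) t = dbar h (z + t) := by
  have h1 : HasFDerivAt (fun w : ℂ => z + w) (ContinuousLinearMap.id ℝ ℂ) t :=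
    (hasFDerivAt_id t).const_add z
  have h2 := (hg (z + t)).hasFDerivAt.comp t h1
  have h3 : fderiv ℝ (fun w => h (z + w)) t =
      (fderiv ℝ h (z + t)).comp (ContinuousLinearMap.id ℝ ℂ) := h2.fderiv
  unfold dbar
  rw [h3]
  simp

lemma pompeiu' {h : ℂ → ℂ} (hh : ContDiff ℝ 1 h) (hc : HasCompactSupport h) (z : ℂ) :
    ∫ s, -(ker (s - z) * dbar h s) = h z := by
  have hd : Differentiable ℝ h := hh.differentiable one_ne_zero
  have h5 : ContDiff ℝ 1 (fun w => h (z + w)) := hh.comp (contDiff_const.add contDiff_id)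
  have h6 : HasCompactSupport (fun w => h (z + w)) := by
    have := hc.comp_homeomorph (Homeomorph.addLeft z)
    exact this
  have h7 := pompeiu h5 h6
  simp_rw [dbar_trans hd z] at h7
  rw [integral_neg]
  have h8 : ∫ s, ker (s - z) * dbar h s = ∫ t, ker t * dbar h (z + t) := by
    rw [← integral_add_left_eq_self (fun s => ker (s - z) * dbar h s) z]
    simp
  rw [h8, h7]
  simp

lemma continuous_dbar {h : ℂ → ℂ} (hh : ContDiff ℝ 1 h) : Continuous (dbar h) := by
  have hfc : Continuous (fderiv ℝ h) := hh.continuous_fderiv one_ne_zero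
  unfold dbar
  have h1 : Continuous (fun z => fderiv ℝ h z 1) := hfc.clm_apply continuous_const
  have h2 : Continuous (fun z => fderiv ℝ h z I) := hfc.clm_apply continuous_const
  fun_prop

lemma hcs_dbar {h : ℂ → ℂ} (hc : HasCompactSupport h) : HasCompactSupport (dbar h) := by
  have hfs : HasCompactSupport (fderiv ℝ h) := hc.fderiv ℝ
  have := hfs.comp_left (g := fun L : ℂ →L[ℝ] ℂ => (1 / 2 : ℂ) * (L 1 + I * L I)) (by simp)
  refine this.mono ?_
  intro z hz
  simp only [Function.mem_support, Function.comp] at hz ⊢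
  intro h0
  apply hz
  unfold dbar
  linear_combination h0

/-- Uniform smallness of the integrals of the kernel on small sets. -/
lemma small_ker (R : ℝ) (ε : ℝ) (hε : 0 < ε) : ∃ δ : ENNReal, 0 < δ ∧ ∀ U : Set ℂ,
    MeasurableSet U → volume U < δ → U ⊆ Metric.ball 0 R → ∀ z ∈ Metric.ball (0 : ℂ) R,
    IntegrableOn (fun s => ‖ker (s - z)‖) U ∧ ∫ s in U, ‖ker (s - z)‖ ≤ ε := by
  set B : Set ℂ := Metric.ball (0 : ℂ) (2 * R) with hB
  have hI : IntegrableOn ker B := integrableOn_ker _
  have hfin : ∫⁻ w in B, ‖ker w‖ₑ ≠ ⊤ := hI.2.ne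
  obtain ⟨δ, hδ, hsm⟩ := exists_pos_setLIntegral_lt_of_measure_lt hfin
    (ε := ENNReal.ofReal ε) (by simpa using hε)
  refine ⟨δ, hδ, ?_⟩
  intro U hU hUδ hUR z hz
  -- the translate of `U`
  set V : Set ℂ := (fun w => w + z) ⁻¹' U with hV
  have hVm : MeasurableSet V := (measurable_add_const z) hU
  have hVv : volume V = volume U := by
    rw [hV]
    exact measure_preimage_add_right volume z U
  have hVB : V ⊆ B := by
    intro w hw
    have h1 : w + z ∈ U := hw
    have h2 := hUR h1
    rw [hB, mem_ball_zero_iff]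
    rw [mem_ball_zero_iff] at h2 hz
    calc ‖w‖ = ‖(w + z) - z‖ := by ring_nf
      _ ≤ ‖w + z‖ + ‖z‖ := norm_sub_le _ _
      _ < 2 * R := by linarith
  have hmp : MeasurePreserving (fun w : ℂ => w + z) volume volume := measurePreserving_add_right _ z
  have hkey : ∫⁻ s in U, ‖ker (s - z)‖ₑ = ∫⁻ w in V, ‖ker w‖ₑ := by
    have h := hmp.setLIntegral_comp_preimage (s := U) hU
      (f := fun s => ‖ker (s - z)‖ₑ) (by
        exact (measurable_ker.comp (measurable_sub_const z)).enorm)
    rw [← h]
    simp [hV]
  have hlt : ∫⁻ s in U, ‖ker (s - z)‖ₑ < ENNReal.ofReal ε := by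
    rw [hkey]
    have h3 := hsm V (by
      calc (volume.restrict B) V ≤ volume V := Measure.restrict_apply_le _ _
        _ < δ := by rw [hVv]; exact hUδ)
    have h4 : (volume.restrict B).restrict V = volume.restrict V := by
      rw [Measure.restrict_restrict hVm, inter_eq_left.mpr hVB]
    rwa [h4] at h3
  have hint : IntegrableOn (fun s => ker (s - z)) U :=
    ⟨(measurable_ker.comp (measurable_sub_const z)).aestronglyMeasurable, hlt.trans ENNReal.ofReal_lt_top⟩
  refine ⟨hint.norm, ?_⟩
  rw [integral_norm_eq_lintegral_enorm hint.1]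
  exact (ENNReal.toReal_le_of_le_ofReal hε.le hlt.le)

theorem cau : T_CAU := by
  intro K hK hK0 S hSc hS
  have : CompactSpace K := isCompact_iff_compactSpace.mp hK
  obtain ⟨R0, hR0⟩ := hK.isBounded.subset_ball (0 : ℂ)
  set R : ℝ := max R0 0 + 1 with hRdef
  have hRpos : 0 < R := by positivity
  have hKR : K ⊆ Metric.closedBall 0 R := hR0.trans
    ((Metric.ball_subset_closedBall).trans (Metric.closedBall_subset_closedBall (by
      rw [hRdef]; linarith [le_max_left R0 0])))
  let χ : ContDiffBump (0 : ℂ) := ⟨R, R + 1, hRpos, by linarith⟩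
  set h : ℂ → ℂ := fun w => (χ w : ℂ) * (starRingEnd ℂ) w with hh
  have hhs : ContDiff ℝ 1 h := by
    have h1 : ContDiff ℝ 1 (fun w : ℂ => ((χ w : ℝ) : ℂ)) :=
      Complex.ofRealCLM.contDiff.comp χ.contDiff
    have h2 : ContDiff ℝ 1 (fun w : ℂ => (starRingEnd ℂ) w) := Complex.conjCLE.contDiff
    exact h1.mul h2
  have hhc : HasCompactSupport h := by
    refine χ.hasCompactSupport.mono ?_
    intro w hw
    simp only [Function.mem_support, hh] at hw ⊢
    intro h0
    apply hw
    rw [h0]; simp
  have hhK : ∀ z ∈ K, h z = (starRingEnd ℂ) z := by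
    intro z hz
    have : χ z = 1 := χ.one_of_mem_closedBall (hKR hz)
    simp [hh, this]
  set g := dbar h with hg
  have hgc : Continuous g := continuous_dbar hhs
  have hgs : HasCompactSupport g := hcs_dbar hhc
  obtain ⟨M, hM⟩ := hgs.exists_bound_of_continuous hgc
  have hM0 : 0 ≤ M := (norm_nonneg _).trans (hM 0)
  obtain ⟨R1, hR1⟩ := (hgs.isCompact.isBounded.union hK.isBounded).subset_ball (0 : ℂ)
  let c : C(K, ℂ) := ⟨fun z => (starRingEnd ℂ) (z : ℂ), by fun_prop⟩
  have hcS : c ∈ S := by
    rw [← SetLike.mem_coe, ← hSc.closure_eq]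
    rw [Metric.mem_closure_iff]
    intro ε hε
    obtain ⟨δ, hδ, hsm⟩ := small_ker R1 (ε / (2 * (M + 1))) (by positivity)
    obtain ⟨U, hKU, hUo, hUδ⟩ := K.exists_isOpen_lt_of_lt δ (by rw [hK0]; exact hδ)
    set T : Set ℂ := tsupport g \ U with hT
    have hTc : IsCompact T := hgs.isCompact.diff hUo
    have : CompactSpace T := isCompact_iff_compactSpace.mp hTc
    have hTK : ∀ s ∈ T, ∀ z ∈ K, s - z ≠ 0 := by
      intro s hs z hz h0
      rw [sub_eq_zero] at h0
      exact hs.2 (h0 ▸ hKU hz)
    let Φ : C(T × K, ℂ) := ⟨fun p => -(ker ((p.1 : ℂ) - (p.2 : ℂ)) * g p.1), by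
      refine Continuous.neg (Continuous.mul ?_ (hgc.comp (continuous_subtype_val.comp continuous_fst)))
      unfold ker
      refine Continuous.inv₀ (by fun_prop) ?_
      intro p
      have h1 := hTK p.1 p.1.2 p.2 p.2.2
      have hpi : (Real.pi : ℂ) ≠ 0 := by exact_mod_cast Real.pi_ne_zero
      exact mul_ne_zero hpi h1⟩
    set ν : Measure T := Measure.comap Subtype.val volume with hν
    have hTm : MeasurableSet T := hTc.measurableSet
    have : IsFiniteMeasure ν := by
      refine ⟨?_⟩
      rw [hν, Measure.comap_apply _ Subtype.val_injective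
        (fun s hs => (MeasurableEmbedding.subtype_coe hTm).measurableSet_image.mpr hs) _
        MeasurableSet.univ]
      simp only [image_univ, Subtype.range_coe_subtype, setOf_mem_eq]
      exact hTc.measure_lt_top
    have hint : Integrable (fun s : T => Φ.curry s) ν := by
      refine (Φ.curry.continuous).integrable_of_hasCompactSupport (HasCompactSupport.of_compactSpace _)
    have hmem : ∀ s : T, Φ.curry s ∈ S := by
      intro s
      obtain ⟨f, hf, hf2⟩ := hS s (fun hsK => s.2.2 (hKU hsK))
      have : Φ.curry s = (g s / Real.pi) • f := by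
        ext z
        have h1 := hf2 z
        have h2 : (z : ℂ) - s ≠ 0 := by
          intro h0
          rw [h0] at h1
          simp at h1
        have h3 : f z = ((z : ℂ) - s)⁻¹ := by
          field_simp
          exact h1
        show -(ker ((s : ℂ) - (z : ℂ)) * g s) = (g s / Real.pi) * f z
        rw [h3]
        unfold ker
        have hpi : (Real.pi : ℂ) ≠ 0 := by exact_mod_cast Real.pi_ne_zero
        have h4 : (s : ℂ) - z ≠ 0 := by
          intro h0
          apply h2
          linear_combination -h0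
        field_simp
        ring
      rw [this]
      exact S.smul_mem _ hf
    have hF : (∫ s, Φ.curry s ∂ν) ∈ (S : Set C(K, ℂ)) := by
      by_cases hν0 : ν = 0
      · rw [hν0]; simp
      · have : NeZero ν := ⟨hν0⟩
        have hconv : Convex ℝ (S : Set C(K, ℂ)) := (S.restrictScalars ℝ).convex
        have h1 := hconv.average_mem hSc (Eventually.of_forall hmem) hint
        rw [average_eq] at h1
        have h2 := (S.restrictScalars ℝ).smul_mem (ν.real univ) (x := (ν.real univ)⁻¹ • ∫ s, Φ.curry s ∂ν) h1
        have h3 : ν.real univ ≠ 0 := by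
          rw [Measure.real, ENNReal.toReal_ne_zero]
          exact ⟨by simpa using hν0, measure_ne_top _ _⟩
        rw [smul_inv_smul₀ h3] at h2
        exact h2
    refine ⟨_, hF, ?_⟩
    rw [dist_eq_norm]
    refine lt_of_le_of_lt ?_ (half_lt_self hε)
    rw [ContinuousMap.norm_le _ (by positivity)]
    intro z
    have hz : (z : ℂ) ∈ Metric.ball (0 : ℂ) R1 := hR1 (Or.inr z.2)
    rw [ContinuousMap.sub_apply, ContinuousMap.integral_apply hint]
    have e1 : ∫ s, Φ.curry s z ∂ν = ∫ s in T, -(ker (s - z) * g s) := by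
      exact integral_subtype_comap hTm (fun s : ℂ => -(ker (s - z) * g s))
    set W : Set ℂ := tsupport g ∩ U with hW
    have hWm : MeasurableSet W := (isClosed_tsupport g).measurableSet.inter hUo.measurableSet
    obtain ⟨hi, hb⟩ := hsm W hWm ((measure_mono inter_subset_right).trans_lt hUδ)
      (fun s hs => hR1 (Or.inl hs.1)) z hz
    have hker : LocallyIntegrable (fun s => ker (s - z)) := by
      intro x
      obtain ⟨V, hV, hVi⟩ := locInt_ker (x - z)
      refine ⟨(fun s => s - (z : ℂ)) ⁻¹' V, ?_, ?_⟩
      · exact (continuous_id.sub continuous_const).continuousAt.preimage_mem_nhds hV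
      · have hmp : MeasurePreserving (fun w : ℂ => w - z) volume volume :=
          measurePreserving_sub_right _ (z : ℂ)
        exact (hmp.integrableOn_comp_preimage (MeasurableEquiv.subRight (z : ℂ)).measurableEmbedding).mpr hVi
    have hfull : Integrable (fun s => -(ker (s - z) * g s)) := by
      refine Integrable.neg ?_
      have := hker.integrable_smul_right_of_hasCompactSupport (g := g) hgc hgs
      simpa [smul_eq_mul, mul_comm] using this
    have e2 : c z = ∫ s in tsupport g, -(ker (s - z) * g s) := by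
      have h1 := pompeiu' hhs hhc z
      rw [hhK z z.2] at h1
      show (starRingEnd ℂ) (z : ℂ) = _
      rw [← h1]
      symm
      apply setIntegral_eq_integral_of_forall_compl_eq_zero
      intro s hs
      have : g s = 0 := image_eq_zero_of_notMem_tsupport hs
      rw [this]; simp
    have hsplit : tsupport g = T ∪ W := by
      rw [hT, hW]; exact (diff_union_inter _ _).symm
    have hdis : Disjoint T W := by
      rw [hT, hW]
      exact disjoint_sdiff_inter
    have e3 : c z - ∫ s, Φ.curry s z ∂ν = ∫ s in W, -(ker (s - z) * g s) := by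
      rw [e1, e2, hsplit, setIntegral_union hdis hWm hfull.integrableOn hfull.integrableOn]
      ring
    rw [e3]
    calc ‖∫ s in W, -(ker (s - z) * g s)‖ ≤ ∫ s in W, ‖ker (s - z)‖ * M := by
          refine norm_integral_le_of_norm_le (hi.mul_const M) (Eventually.of_forall ?_)
          intro s
          rw [norm_neg, norm_mul]
          exact mul_le_mul_of_nonneg_left (hM s) (norm_nonneg _)
      _ = (∫ s in W, ‖ker (s - z)‖) * M := integral_mul_const _ _
      _ ≤ (ε / (2 * (M + 1))) * M := mul_le_mul_of_nonneg_right hb hM0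
      _ ≤ ε / 2 := by
          rw [div_mul_eq_mul_div, div_le_div_iff₀ (by positivity) (by positivity)]
          nlinarith
  exact ⟨c, hcS, fun z => rfl⟩

end Pool.Agent.H24.KC
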