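import Pool.Agent.H93.KC.Targets

/-!
# Module CONZ: the complement of `G4 ∪ G2`
-/

set_option autoImplicit false

namespace Pool.Agent.H24.KC

open Set Topology MeasureTheory Filter Metric
open Pool.Agent.H93.KC

lemma av {z : ℂ} (h1 : ‖z - 4‖ ≠ 8 ∨ ‖z + 4‖ < 1 / 25) (h2 : ‖z + 1‖ ≠ 2 ∨ ‖z - 1‖ < 1 / 100) :
    z ∈ (G4 ∪ G2)ᶜ := by
  rintro (h | h)
  · rcases h1 with h1 | h1
    · exact h1 h.1
    · exact absurd h.2 (not_le.mpr h1)
  · rcases h2 with h2 | h2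
    · exact h2 h.1
    · exact absurd h.2 (not_le.mpr h2)

lemma near4 (z : ℂ) : ‖z - 4‖ ≤ ‖z + 1‖ + 5 := by
  calc ‖z - 4‖ = ‖(z + 1) - 5‖ := by ring_nf
    _ ≤ ‖z + 1‖ + ‖(5 : ℂ)‖ := norm_sub_le _ _
    _ = _ := by norm_num

def C1 : Set ℂ := sphere (-1) (5 / 2)
def R1 : Set ℂ := (fun x : ℝ => (x : ℂ)) '' Ioo (-14) (-3.2)
def R2 : Set ℂ := (fun x : ℝ => (x : ℂ)) '' Ioo 1 1.6

lemma pre_C1 : IsPreconnected C1 :=
  isPreconnected_sphere (by rw [Complex.rank_real_complex]; norm_num) _ _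

lemma pre_R1 : IsPreconnected R1 :=
  isPreconnected_Ioo.image _ Complex.continuous_ofReal.continuousOn

lemma pre_R2 : IsPreconnected R2 :=
  isPreconnected_Ioo.image _ Complex.continuous_ofReal.continuousOn

lemma mem_C1 {z : ℂ} : z ∈ C1 ↔ ‖z + 1‖ = 5 / 2 := by
  rw [C1, mem_sphere_iff_norm, sub_neg_eq_add]

lemma sub_C1 : C1 ⊆ (G4 ∪ G2)ᶜ := by
  intro z hz
  rw [mem_C1] at hz
  have := near4 z
  exact av (Or.inl (by intro h; linarith)) (Or.inl (by rw [hz]; norm_num))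

lemma nr (x c : ℝ) : ‖((x : ℝ) : ℂ) - (c : ℂ)‖ = |x - c| := by
  rw [← Complex.ofReal_sub, Complex.norm_real, Real.norm_eq_abs]

lemma nr4 (x : ℝ) : ‖((x : ℝ) : ℂ) - 4‖ = |x - 4| := by simpa using nr x 4
lemma nr4' (x : ℝ) : ‖((x : ℝ) : ℂ) + 4‖ = |x + 4| := by simpa using nr x (-4)
lemma nr1 (x : ℝ) : ‖((x : ℝ) : ℂ) - 1‖ = |x - 1| := by simpa using nr x 1
lemma nr1' (x : ℝ) : ‖((x : ℝ) : ℂ) + 1‖ = |x + 1| := by simpa using nr x (-1)

lemma sub_R1 : R1 ⊆ (G4 ∪ G2)ᶜ := by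
  rintro _ ⟨x, ⟨hx1, hx2⟩, rfl⟩
  refine av ?_ (Or.inl ?_)
  · simp only [nr4, nr4']
    by_cases h : x = -4
    · right; rw [h]; norm_num
    · left
      rw [abs_of_neg (by linarith)]
      intro h1
      apply h; linarith
  · simp only [nr1']
    rw [abs_of_neg (by linarith)]
    intro h; linarith

lemma sub_R2 : R2 ⊆ (G4 ∪ G2)ᶜ := by
  rintro _ ⟨x, ⟨hx1, hx2⟩, rfl⟩
  refine av (Or.inl ?_) (Or.inl ?_)
  · simp only [nr4]
    rw [abs_of_neg (by linarith)]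
    intro h; linarith
  · simp only [nr1']
    rw [abs_of_pos (by linarith)]
    intro h; linarith

lemma meet1 : (((-3.5 : ℝ) : ℂ)) ∈ C1 := by
  rw [mem_C1, nr1']; norm_num

lemma meet1' : (((-3.5 : ℝ) : ℂ)) ∈ R1 := ⟨-3.5, by norm_num, rfl⟩

/-- the base set -/
def TT : Set ℂ := C1 ∪ R1

lemma pre_T : IsPreconnected TT := IsPreconnected.union _ meet1 meet1' pre_C1 pre_R1

lemma sub_T : TT ⊆ (G4 ∪ G2)ᶜ := union_subset sub_C1 sub_R1

lemma far_T : (((-13 : ℝ) : ℂ)) ∈ TT := Or.inr ⟨-13, by norm_num, rfl⟩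

lemma far_norm : (12 : ℝ) < ‖((-13 : ℝ) : ℂ)‖ := by
  rw [Complex.norm_real]; norm_num

def BB : Set ℂ := ball 1 (1 / 100)

lemma sub_BB : BB ⊆ (G4 ∪ G2)ᶜ := by
  intro z hz
  rw [BB, mem_ball_iff_norm] at hz
  refine av (Or.inl ?_) (Or.inr hz)
  have : ‖z - 4‖ ≤ ‖z - 1‖ + 3 := by
    calc ‖z - 4‖ = ‖(z - 1) - 3‖ := by ring_nf
      _ ≤ ‖z - 1‖ + ‖(3 : ℂ)‖ := norm_sub_le _ _
      _ = _ := by norm_num
  intro h; linarith

/-- the base set together with the gap at `1` -/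
def TB : Set ℂ := BB ∪ (R2 ∪ TT)

lemma pre_TB : IsPreconnected TB := by
  refine IsPreconnected.union (((1.005 : ℝ) : ℂ)) ?_ (Or.inl ?_)
    (convex_ball _ _).isPreconnected (IsPreconnected.union (((1.5 : ℝ) : ℂ)) ?_ (Or.inl ?_) pre_R2 pre_T)
  · rw [BB, mem_ball_iff_norm, nr1]; norm_num [abs_of_pos]
  · exact ⟨1.005, by norm_num, rfl⟩
  · exact ⟨1.5, by norm_num, rfl⟩
  · rw [mem_C1, nr1']; norm_num [abs_of_pos]

lemma sub_TB : TB ⊆ (G4 ∪ G2)ᶜ := union_subset sub_BB (union_subset sub_R2 sub_T)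

theorem conz : T_CONZ := by
  intro a ha
  rcases lt_trichotomy ‖a - 4‖ 8 with h4 | h4 | h4
  · rcases lt_trichotomy ‖a + 1‖ 2 with h1 | h1 | h1
    · refine ⟨ball (-1) 2 ∪ TB, ?_, union_subset ?_ sub_TB, Or.inl ?_, _,
        Or.inr (Or.inr (Or.inr far_T)), far_norm⟩
      · refine IsPreconnected.union (((0.995 : ℝ) : ℂ)) ?_ (Or.inl ?_)
          (convex_ball _ _).isPreconnected pre_TB
        · rw [mem_ball_iff_norm, sub_neg_eq_add, nr1']; norm_num [abs_of_pos]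
        · rw [BB, mem_ball_iff_norm, nr1, abs_of_neg (by norm_num)]; norm_num
      · intro z hz
        rw [mem_ball_iff_norm, sub_neg_eq_add] at hz
        have := near4 z
        exact av (Or.inl (by intro h; linarith)) (Or.inl hz.ne)
      · rw [mem_ball_iff_norm, sub_neg_eq_add]; exact h1
    · have h5 : ‖a - 1‖ < 1 / 100 := by
        by_contra h
        exact ha (Or.inr ⟨h1, not_lt.mp h⟩)
      refine ⟨TB, pre_TB, sub_TB, Or.inl ?_, _, Or.inr (Or.inr far_T), far_norm⟩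
      rw [BB, mem_ball_iff_norm]; exact h5
    · -- radial segment
      set b : ℂ := -1 + ((5 / 2 / ‖a + 1‖ : ℝ) : ℂ) * (a + 1) with hb
      have hpos : 0 < ‖a + 1‖ := by linarith
      have hb1 : ‖b + 1‖ = 5 / 2 := by
        have : b + 1 = ((5 / 2 / ‖a + 1‖ : ℝ) : ℂ) * (a + 1) := by rw [hb]; ring
        rw [this, norm_mul, Complex.norm_real, Real.norm_eq_abs, abs_of_pos (by positivity)]
        field_simp
      have hbC : b ∈ C1 := by rw [mem_C1]; exact hb1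
      have hb4 : ‖b - 4‖ < 8 := by have := near4 b; linarith
      refine ⟨segment ℝ a b ∪ TT, ?_, union_subset ?_ sub_T, Or.inl (left_mem_segment _ _ _), _,
        Or.inr far_T, far_norm⟩
      · exact IsPreconnected.union b (right_mem_segment _ _ _) (Or.inl hbC)
          (convex_segment _ _).isPreconnected pre_T
      · intro z hz
        have hz4 : z ∈ ball (4 : ℂ) 8 := by
          refine (convex_ball (4 : ℂ) 8).segment_subset ?_ ?_ hz
          · rw [mem_ball_iff_norm]; exact h4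
          · rw [mem_ball_iff_norm]; exact hb4
        rw [mem_ball_iff_norm] at hz4
        obtain ⟨s, t, hs, ht, hst, rfl⟩ := hz
        refine av (Or.inl hz4.ne) (Or.inl ?_)
        have e : s • a + t • b + 1 = ((s + t * (5 / 2 / ‖a + 1‖) : ℝ) : ℂ) * (a + 1) := by
          rw [hb]
          simp only [Complex.real_smul]
          push_cast
          have : (s : ℂ) + t = 1 := by exact_mod_cast hst
          linear_combination (-1 : ℂ) * this
        rw [e, norm_mul, Complex.norm_real, Real.norm_eq_abs, abs_of_nonneg (by positivity)]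
        have e2 : (s + t * (5 / 2 / ‖a + 1‖)) * ‖a + 1‖ = s * ‖a + 1‖ + t * (5 / 2) := by
          field_simp
        rw [e2]
        intro h
        have : s * 2 + t * 2 = 2 := by linarith
        have h6 : s * 2 ≤ s * ‖a + 1‖ := mul_le_mul_of_nonneg_left h1.le hs
        have h7 : t * 2 ≤ t * (5 / 2) := mul_le_mul_of_nonneg_left (by norm_num) ht
        have h8 : t = 0 := by
          by_contra h0
          have : 0 < t := lt_of_le_of_ne ht (Ne.symm h0)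
          nlinarith
        have h9 : s = 1 := by linarith
        rw [h8, h9] at h
        linarith
  · have h5 : ‖a + 4‖ < 1 / 25 := by
      by_contra h
      exact ha (Or.inl ⟨h4, not_lt.mp h⟩)
    refine ⟨ball (-4) (1 / 25) ∪ TT, ?_, union_subset ?_ sub_T, Or.inl ?_, _, Or.inr far_T, far_norm⟩
    · refine IsPreconnected.union (((-4 : ℝ) : ℂ)) ?_ (Or.inr ?_)
          (convex_ball _ _).isPreconnected pre_T
      · rw [mem_ball_iff_norm, sub_neg_eq_add, nr4']; norm_num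
      · exact ⟨-4, by norm_num, rfl⟩
    · intro z hz
      rw [mem_ball_iff_norm, sub_neg_eq_add] at hz
      refine av (Or.inr hz) (Or.inl ?_)
      have : (3 : ℝ) ≤ ‖z + 1‖ + ‖z + 4‖ := by
        calc (3 : ℝ) = ‖(z + 4) - (z + 1)‖ := by
              rw [show (z + 4) - (z + 1) = 3 by ring]; norm_num
          _ ≤ ‖z + 4‖ + ‖z + 1‖ := norm_sub_le _ _
          _ = _ := add_comm _ _
      intro h; linarith
    · rw [mem_ball_iff_norm, sub_neg_eq_add]; exact h5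
  · refine ⟨(fun t : ℝ => (4 : ℂ) + (t : ℂ) * (a - 4)) '' Ici 1, ?_, ?_, ⟨1, by simp, by simp⟩, _,
      ⟨3, by simp, rfl⟩, ?_⟩
    · refine isPreconnected_Ici.image _ ?_
      fun_prop
    · rintro _ ⟨t, ht, rfl⟩
      have ht1 : (1 : ℝ) ≤ t := ht
      have e : ‖(4 : ℂ) + (t : ℂ) * (a - 4) - 4‖ = t * ‖a - 4‖ := by
        rw [show (4 : ℂ) + (t : ℂ) * (a - 4) - 4 = (t : ℂ) * (a - 4) by ring, norm_mul,
          Complex.norm_real, Real.norm_eq_abs, abs_of_nonneg (by linarith)]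
      have e1 : 8 < ‖(4 : ℂ) + (t : ℂ) * (a - 4) - 4‖ := by rw [e]; nlinarith
      have e2 := near4 ((4 : ℂ) + (t : ℂ) * (a - 4))
      exact av (Or.inl e1.ne') (Or.inl (by intro h; linarith))
    · have e : ‖((3 : ℝ) : ℂ) * (a - 4)‖ = 3 * ‖a - 4‖ := by
        rw [norm_mul, Complex.norm_real]; norm_num
      have e3 : ‖((3 : ℝ) : ℂ) * (a - 4)‖ ≤ ‖(4 : ℂ) + ((3 : ℝ) : ℂ) * (a - 4)‖ + 4 := by
        calc ‖((3 : ℝ) : ℂ) * (a - 4)‖ = ‖((4 : ℂ) + ((3 : ℝ) : ℂ) * (a - 4)) - 4‖ := by ring_nf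
          _ ≤ _ + ‖(4 : ℂ)‖ := norm_sub_le _ _
          _ = _ := by norm_num
      show (12 : ℝ) < ‖(4 : ℂ) + ((3 : ℝ) : ℂ) * (a - 4)‖
      linarith

end Pool.Agent.H24.KC
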