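import Pool.Agent.H93.KC.Targets

/-!
# Modules GAM and ZED: Laurent and polynomial approximation
-/

set_option autoImplicit false

namespace Pool.Agent.H24.KC

open Set Topology MeasureTheory Filter Metric
open Pool.Agent.H93.KC

lemma closed_aux (c d : ℂ) (r s : ℝ) : IsCompact {z : ℂ | ‖z - c‖ = r ∧ s ≤ ‖z + d‖} ∧
    volume {z : ℂ | ‖z - c‖ = r ∧ s ≤ ‖z + d‖} = 0 := by
  have hsub : {z : ℂ | ‖z - c‖ = r ∧ s ≤ ‖z + d‖} ⊆ sphere c r := by
    intro z hz
    rw [mem_sphere_iff_norm]; exact hz.1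
  constructor
  · refine (isCompact_sphere c r).of_isClosed_subset ?_ hsub
    have e1 : Continuous (fun z : ℂ => ‖z - c‖) := by fun_prop
    have e2 : Continuous (fun z : ℂ => ‖z + d‖) := by fun_prop
    exact (isClosed_eq e1 continuous_const).inter (isClosed_le continuous_const e2)
  · exact measure_mono_null hsub (Measure.addHaar_sphere _ _ _)

lemma g1c : IsCompact G1 ∧ volume G1 = 0 := closed_aux 1 1 2 _
lemma g2c : IsCompact G2 ∧ volume G2 = 0 := by
  have := closed_aux (-1) (-1) 2 (1 / 100)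
  simpa [G2, sub_eq_add_neg] using this
lemma g4c : IsCompact G4 ∧ volume G4 = 0 := closed_aux 4 4 8 _

lemma null_union {A B : Set ℂ} (hA : volume A = 0) (hB : volume B = 0) : volume (A ∪ B) = 0 :=
  measure_union_null hA hB

theorem zed (hr : T_HR) (hpush : T_PUSH) (hconz : T_CONZ) : T_ZED := by
  intro G hG ε hε
  set K : Set ℂ := G4 ∪ G2 with hKdef
  have hK : IsCompact K := g4c.1.union g2c.1
  have hK0 : volume K = 0 := null_union g4c.2 g2c.2
  have : CompactSpace K := isCompact_iff_compactSpace.mp hK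
  have hKn : ∀ z ∈ K, ‖z‖ ≤ 12 := by
    rintro z (h | h)
    · calc ‖z‖ = ‖(z - 4) + 4‖ := by ring_nf
        _ ≤ ‖z - 4‖ + ‖(4 : ℂ)‖ := norm_add_le _ _
        _ = _ := by rw [h.1]; norm_num
    · calc ‖z‖ = ‖(z + 1) - 1‖ := by ring_nf
        _ ≤ ‖z + 1‖ + ‖(1 : ℂ)‖ := norm_sub_le _ _
        _ ≤ _ := by rw [h.1]; norm_num
  set A : Subalgebra ℂ C(K, ℂ) := (polynomialFunctions K).topologicalClosure with hA
  have hAc : IsClosed (A : Set C(K, ℂ)) := Subalgebra.isClosed_topologicalClosure _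
  have hZ : ∃ f ∈ A, ∀ z : K, f z = z := by
    refine ⟨Polynomial.toContinuousMapOnAlgHom K Polynomial.X,
      Subalgebra.le_topologicalClosure _ ?_, by simp⟩
    rw [← SetLike.mem_coe, polynomialFunctions_coe]
    exact ⟨_, rfl⟩
  obtain ⟨h1, h2⟩ := hpush K hK A hAc hZ
  have htop : A = ⊤ := by
    refine hr K hK hK0 A hAc hZ ?_
    intro a ha
    obtain ⟨C, hC, hCK, haC, b, hbC, hb⟩ := hconz a ha
    exact h2 C hC hCK b hbC a haC (h1 b (fun z hz => (hKn z hz).trans_lt hb))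
  let f : C(K, ℂ) := ⟨fun z => G z, continuousOn_iff_continuous_domRestrict.mp hG⟩
  have hf : f ∈ closure (polynomialFunctions K : Set C(K, ℂ)) := by
    have : f ∈ A := by rw [htop]; exact Algebra.mem_top
    exact this
  rw [Metric.mem_closure_iff] at hf
  obtain ⟨g, hg, hfg⟩ := hf ε hε
  rw [polynomialFunctions_coe] at hg
  obtain ⟨p, rfl⟩ := hg
  refine ⟨p, ?_⟩
  intro z hz
  have h3 := (ContinuousMap.dist_apply_le_dist (f := f)
    (g := Polynomial.toContinuousMapOnAlgHom K p) (⟨z, hz⟩ : K)).trans_lt hfg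
  rw [dist_comm, dist_eq_norm] at h3
  simpa [f] using h3

theorem gam (hr : T_HR) (hpush : T_PUSH) (hcong : T_CONG) : T_GAM := by
  intro G hG ε hε
  set K : Set ℂ := G1 ∪ G2 with hKdef
  have hK : IsCompact K := g1c.1.union g2c.1
  have hK0 : volume K = 0 := null_union g1c.2 g2c.2
  have : CompactSpace K := isCompact_iff_compactSpace.mp hK
  have hKn : ∀ z ∈ K, ‖z‖ ≤ 3 := by
    rintro z (h | h)
    · calc ‖z‖ = ‖(z - 1) + 1‖ := by ring_nf
        _ ≤ ‖z - 1‖ + ‖(1 : ℂ)‖ := norm_add_le _ _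
        _ = _ := by rw [h.1]; norm_num
    · calc ‖z‖ = ‖(z + 1) - 1‖ := by ring_nf
        _ ≤ ‖z + 1‖ + ‖(1 : ℂ)‖ := norm_sub_le _ _
        _ = _ := by rw [h.1]; norm_num
  have hK00 : ∀ z ∈ K, z ≠ 0 := by
    rintro z (h | h) rfl
    · have := h.1; norm_num at this
    · have := h.1; norm_num at this
  let Z : C(K, ℂ) := ⟨fun z => z, continuous_subtype_val⟩
  let W : C(K, ℂ) := ⟨fun z => (z : ℂ)⁻¹, continuous_subtype_val.inv₀ (fun z => hK00 z z.2)⟩
  set A0 : Subalgebra ℂ C(K, ℂ) := Algebra.adjoin ℂ {Z, W} with hA0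
  set A : Subalgebra ℂ C(K, ℂ) := A0.topologicalClosure with hA
  have hAc : IsClosed (A : Set C(K, ℂ)) := Subalgebra.isClosed_topologicalClosure _
  have hZ : ∃ f ∈ A, ∀ z : K, f z = z :=
    ⟨Z, Subalgebra.le_topologicalClosure _ (Algebra.subset_adjoin (by simp)), fun z => rfl⟩
  have hW : ∃ f ∈ A, ∀ z : K, f z * ((z : ℂ) - 0) = 1 := by
    refine ⟨W, Subalgebra.le_topologicalClosure _ (Algebra.subset_adjoin (by simp)), fun z => ?_⟩
    show (z : ℂ)⁻¹ * ((z : ℂ) - 0) = 1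
    rw [sub_zero, inv_mul_cancel₀ (hK00 z z.2)]
  obtain ⟨h1, h2⟩ := hpush K hK A hAc hZ
  have htop : A = ⊤ := by
    refine hr K hK hK0 A hAc hZ ?_
    intro a ha
    obtain ⟨C, hC, hCK, haC, h0 | ⟨b, hbC, hb⟩⟩ := hcong a ha
    · exact h2 C hC hCK 0 h0 a haC hW
    · exact h2 C hC hCK b hbC a haC (h1 b (fun z hz => (hKn z hz).trans_lt hb))
  have hrep : ∀ g ∈ A0, ∃ (p : Polynomial ℂ) (N : ℕ), ∀ z : K, g z = p.eval (z : ℂ) / (z : ℂ) ^ N := by
    intro g hg
    induction hg using Algebra.adjoin_induction with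
    | mem x hx =>
      rcases hx with rfl | hx
      · exact ⟨Polynomial.X, 0, fun z => by simp [Z]⟩
      · rw [mem_singleton_iff] at hx
        subst hx
        exact ⟨1, 1, fun z => by simp [W]⟩
    | algebraMap r => exact ⟨Polynomial.C r, 0, fun z => by simp⟩
    | add x y _ _ hx hy =>
      obtain ⟨p, N, hp⟩ := hx
      obtain ⟨q, M, hq⟩ := hy
      refine ⟨p * Polynomial.X ^ M + q * Polynomial.X ^ N, N + M, fun z => ?_⟩
      have hz := hK00 z z.2
      rw [ContinuousMap.add_apply, hp, hq]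
      simp only [Polynomial.eval_add, Polynomial.eval_mul, Polynomial.eval_pow, Polynomial.eval_X]
      field_simp
      ring
    | mul x y _ _ hx hy =>
      obtain ⟨p, N, hp⟩ := hx
      obtain ⟨q, M, hq⟩ := hy
      refine ⟨p * q, N + M, fun z => ?_⟩
      have hz := hK00 z z.2
      rw [ContinuousMap.mul_apply, hp, hq]
      simp only [Polynomial.eval_mul]
      field_simp
      ring
  let f : C(K, ℂ) := ⟨fun z => G z, continuousOn_iff_continuous_domRestrict.mp hG⟩
  have hf : f ∈ closure (A0 : Set C(K, ℂ)) := by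
    have : f ∈ A := by rw [htop]; exact Algebra.mem_top
    exact this
  rw [Metric.mem_closure_iff] at hf
  obtain ⟨g, hg, hfg⟩ := hf ε hε
  obtain ⟨p, N, hp⟩ := hrep g hg
  refine ⟨p, N, ?_⟩
  intro z hz
  have h3 := (ContinuousMap.dist_apply_le_dist (f := f) (g := g) (⟨z, hz⟩ : K)).trans_lt hfg
  rw [dist_comm, dist_eq_norm, hp] at h3
  simpa [f] using h3

end Pool.Agent.H24.KC
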