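import Pool.Agent.H93.KC.Targets

/-!
# Module HR (Hartogs-Rosenthal)
-/

set_option autoImplicit false

namespace Pool.Agent.H24.KC

open Set Topology MeasureTheory Filter
open Pool.Agent.H93.KC

theorem hr (hcau : T_CAU) : T_HR := by
  intro K hK hK0 A hAc hZ hA
  have : CompactSpace K := isCompact_iff_compactSpace.mp hK
  obtain ⟨Z, hZA, hZ⟩ := hZ
  obtain ⟨W, hWA, hW⟩ := hcau K hK hK0 (Subalgebra.toSubmodule A) hAc (by
    intro a ha
    obtain ⟨f, hf, hf2⟩ := hA a ha
    exact ⟨f, hf, hf2⟩)
  rw [eq_top_iff]
  intro f _
  have h1 : f ∈ ((polynomialFunctions K).starClosure.topologicalClosure : StarSubalgebra ℂ C(K, ℂ)) := by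
    rw [polynomialFunctions.starClosure_topologicalClosure]
    exact StarSubalgebra.mem_top
  rw [← SetLike.mem_coe, StarSubalgebra.topologicalClosure_coe] at h1
  have h2 : ((polynomialFunctions K).starClosure : Set C(K, ℂ)) ⊆ A := by
    rw [polynomialFunctions.starClosure_eq_adjoin_X]
    intro g hg
    have h3 : g ∈ (StarAlgebra.adjoin ℂ {Polynomial.toContinuousMapOnAlgHom K Polynomial.X}).toSubalgebra := hg
    rw [StarAlgebra.adjoin_toSubalgebra] at h3
    refine (Algebra.adjoin_le ?_) h3
    intro x hx
    rcases hx with hx | hx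
    · rw [mem_singleton_iff] at hx
      have : x = Z := by
        ext z
        rw [hx, hZ]
        simp
      rw [this]; exact hZA
    · rw [Set.mem_star, mem_singleton_iff] at hx
      have : x = W := by
        ext z
        have h4 : star (x z) = (z : ℂ) := by
          have := congrArg (fun f : C(K, ℂ) => f z) hx
          simpa using this
        rw [hW, ← h4]
        simp
      rw [this]; exact hWA
  exact hAc.closure_subset_iff.mpr h2 h1

end Pool.Agent.H24.KC
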